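import Mathlib

/-! # Weights with an explicit Fourier transform; linear statistics -/

set_option autoImplicit false

open Finset MeasureTheory Set Filter Topology

namespace Pool.Agent.R846.NR

/-- `φ` is the transform of the even nonnegative function `g` supported in `[-δ, δ]` -/
structure Wt (g φ : ℝ → ℝ) (δ K : ℝ) : Prop where
  δ0 : 0 ≤ δ
  gc : Continuous g
  ge : ∀ α, g (-α) = g α
  g0 : ∀ α, 0 ≤ g α
  gs : ∀ α, δ < |α| → g α = 0
  phi_eq : ∀ x, φ x = ∫ α, g α * Real.cos (2 * Real.pi * α * x)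
  phi0 : ∀ x, 0 ≤ φ x
  phiK : ∀ x, φ x * (1 + x ^ 2) ≤ K
  inv : ∀ β, ∫ x, φ x * Real.cos (2 * Real.pi * x * β) = g β

variable {g φ : ℝ → ℝ} {δ K : ℝ}

lemma Wt.g_int (h : Wt g φ δ K) : Integrable g := by
  apply h.gc.integrable_of_hasCompactSupport
  apply HasCompactSupport.intro (isCompact_Icc (a := -δ) (b := δ))
  intro x hx
  apply h.gs
  by_contra hcon
  push Not at hcon
  exact hx (abs_le.1 hcon)

lemma Wt.phi_even (h : Wt g φ δ K) (x : ℝ) : φ (-x) = φ x := by
  rw [h.phi_eq, h.phi_eq]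
  congr 1
  funext α
  have : 2 * Real.pi * α * -x = -(2 * Real.pi * α * x) := by ring
  rw [this, Real.cos_neg]

lemma Wt.phi_cont (h : Wt g φ δ K) : Continuous φ := by
  have e : φ = fun x => ∫ α, g α * Real.cos (2 * Real.pi * α * x) := funext h.phi_eq
  rw [e]
  refine continuous_of_dominated (bound := fun α => |g α|) (fun x => ?_) (fun x => ?_)
    h.g_int.abs ?_
  · exact (h.gc.mul (by fun_prop)).aestronglyMeasurable
  · refine Filter.Eventually.of_forall fun α => ?_
    rw [norm_mul, Real.norm_eq_abs, Real.norm_eq_abs]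
    exact mul_le_of_le_one_right (abs_nonneg _) (Real.abs_cos_le_one _)
  · exact Filter.Eventually.of_forall fun α => by fun_prop

lemma Wt.phi_le (h : Wt g φ δ K) (x : ℝ) : φ x ≤ K * (1 + x ^ 2)⁻¹ := by
  rw [← div_eq_mul_inv, le_div_iff₀ (by positivity)]
  exact h.phiK x

lemma Wt.K0 (h : Wt g φ δ K) : 0 ≤ K :=
  (mul_nonneg (h.phi0 0) (by positivity)).trans (h.phiK 0)

lemma Wt.phi_leK (h : Wt g φ δ K) (x : ℝ) : φ x ≤ K := by
  have h1 := h.phiK x
  have h2 := h.phi0 x
  nlinarith [sq_nonneg x]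

lemma Wt.phi_int (h : Wt g φ δ K) : Integrable φ := by
  refine (integrable_inv_one_add_sq.const_mul K).mono' h.phi_cont.aestronglyMeasurable
    (Filter.Eventually.of_forall fun x => ?_)
  rw [Real.norm_eq_abs, abs_of_nonneg (h.phi0 x)]
  exact h.phi_le x

lemma Wt.total (h : Wt g φ δ K) : ∫ x, φ x = g 0 := by
  have := h.inv 0
  simpa using this

lemma Wt.sin_zero (h : Wt g φ δ K) (β : ℝ) : ∫ x, φ x * Real.sin (2 * Real.pi * x * β) = 0 := by
  have h1 := integral_neg_eq_self (fun x => φ x * Real.sin (2 * Real.pi * x * β)) volume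
  have h2 : ∫ x, φ (-x) * Real.sin (2 * Real.pi * (-x) * β) =
      -∫ x, φ x * Real.sin (2 * Real.pi * x * β) := by
    rw [← integral_neg]
    congr 1
    funext x
    have : 2 * Real.pi * -x * β = -(2 * Real.pi * x * β) := by ring
    rw [h.phi_even, this, Real.sin_neg]
    ring
  rw [h2] at h1
  linarith

/-- the autocorrelation -/
lemma Wt.autocorr (h : Wt g φ δ K) (y : ℝ) :
    ∫ x, φ x * φ (x + y) = ∫ α, g α ^ 2 * Real.cos (2 * Real.pi * α * y) := by
  have hcint : ∀ β : ℝ, Integrable fun x => φ x * Real.cos (2 * Real.pi * x * β) := fun β => by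
    refine h.phi_int.mono' (h.phi_cont.mul (by fun_prop)).aestronglyMeasurable
      (Filter.Eventually.of_forall fun x => ?_)
    rw [norm_mul, Real.norm_eq_abs, Real.norm_eq_abs, abs_of_nonneg (h.phi0 x)]
    exact mul_le_of_le_one_right (h.phi0 x) (Real.abs_cos_le_one _)
  have hsint : ∀ β : ℝ, Integrable fun x => φ x * Real.sin (2 * Real.pi * x * β) := fun β => by
    refine h.phi_int.mono' (h.phi_cont.mul (by fun_prop)).aestronglyMeasurable
      (Filter.Eventually.of_forall fun x => ?_)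
    rw [norm_mul, Real.norm_eq_abs, Real.norm_eq_abs, abs_of_nonneg (h.phi0 x)]
    exact mul_le_of_le_one_right (h.phi0 x) (Real.abs_sin_le_one _)
  have h1 : ∀ x, φ x * φ (x + y) = ∫ α, φ x * (g α * Real.cos (2 * Real.pi * α * (x + y))) := by
    intro x
    rw [h.phi_eq (x + y), integral_const_mul]
  simp_rw [h1]
  rw [integral_integral_swap]
  · congr 1
    funext α
    have e : ∀ x, φ x * (g α * Real.cos (2 * Real.pi * α * (x + y))) =
        g α * Real.cos (2 * Real.pi * α * y) * (φ x * Real.cos (2 * Real.pi * x * α)) -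
        g α * Real.sin (2 * Real.pi * α * y) * (φ x * Real.sin (2 * Real.pi * x * α)) := by
      intro x
      have e1 : 2 * Real.pi * α * (x + y) = 2 * Real.pi * x * α + 2 * Real.pi * α * y := by ring
      rw [e1, Real.cos_add]
      ring
    simp_rw [e]
    rw [integral_sub ((hcint α).const_mul _) ((hsint α).const_mul _), integral_const_mul,
      integral_const_mul, h.inv, h.sin_zero]
    ring
  · have hp := h.phi_int.mul_prod h.g_int
    refine hp.norm.mono' ?_ (Filter.Eventually.of_forall fun z => ?_)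
    · apply Continuous.aestronglyMeasurable
      have := h.phi_cont
      have := h.gc
      unfold Function.uncurry
      fun_prop
    · simp only [Function.uncurry]
      rw [norm_mul, norm_mul, norm_mul]
      have := Real.abs_cos_le_one (2 * Real.pi * z.2 * (z.1 + y))
      rw [← Real.norm_eq_abs] at this
      calc ‖φ z.1‖ * (‖g z.2‖ * ‖Real.cos (2 * Real.pi * z.2 * (z.1 + y))‖) ≤
          ‖φ z.1‖ * (‖g z.2‖ * 1) := by gcongr
        _ = _ := by ring

/-- decay of the autocorrelation -/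
lemma Wt.autocorr_decay (h : Wt g φ δ K) (y : ℝ) :
    |∫ α, g α ^ 2 * Real.cos (2 * Real.pi * α * y)| * (1 + y ^ 2) ≤ 8 * K * g 0 := by
  rw [← h.autocorr]
  have h0 : ∀ x, 0 ≤ φ x * φ (x + y) := fun x => mul_nonneg (h.phi0 _) (h.phi0 _)
  rw [abs_of_nonneg (integral_nonneg h0)]
  have hK := h.K0
  have key : ∀ x, φ x * φ (x + y) ≤ 4 * K * (1 + y ^ 2)⁻¹ * (φ x + φ (x + y)) := by
    intro x
    have a0 := h.phi0 x
    have b0 := h.phi0 (x + y)
    have hy : 0 < 1 + y ^ 2 := by positivity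
    -- one of `|x|`, `|x + y|` is at least `|y| / 2`
    have h1 : y ^ 2 ≤ 4 * x ^ 2 ∨ y ^ 2 ≤ 4 * (x + y) ^ 2 := by
      by_contra hcon
      push Not at hcon
      nlinarith [sq_nonneg (x + (x + y))]
    have h2 : ∀ z, y ^ 2 ≤ 4 * z ^ 2 → φ z ≤ 4 * K * (1 + y ^ 2)⁻¹ := by
      intro z hz
      rw [← div_eq_mul_inv, le_div_iff₀ hy]
      have h3 := h.phiK z
      have h4 := h.phi0 z
      have h5 : φ z * (1 + y ^ 2) ≤ φ z * (4 * (1 + z ^ 2)) := by
        apply mul_le_mul_of_nonneg_left _ h4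
        nlinarith
      linarith
    have h4 : 0 ≤ 4 * K * (1 + y ^ 2)⁻¹ := by positivity
    rcases h1 with h1 | h1
    · have := h2 x h1
      nlinarith
    · have := h2 (x + y) h1
      nlinarith
  have hi2 : Integrable fun x => φ (x + y) := h.phi_int.comp_add_right y
  have h3 : ∫ x, φ x * φ (x + y) ≤ ∫ x, 4 * K * (1 + y ^ 2)⁻¹ * (φ x + φ (x + y)) :=
    integral_mono_of_nonneg (Filter.Eventually.of_forall h0)
      ((h.phi_int.add hi2).const_mul _) (Filter.Eventually.of_forall key)
  rw [integral_const_mul, integral_add h.phi_int hi2,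
    integral_add_right_eq_self (μ := volume) φ y, h.total] at h3
  have hy : 0 < 1 + y ^ 2 := by positivity
  calc (∫ x, φ x * φ (x + y)) * (1 + y ^ 2) ≤
      4 * K * (1 + y ^ 2)⁻¹ * (g 0 + g 0) * (1 + y ^ 2) := by gcongr
    _ = 8 * K * g 0 := by field_simp; ring

section stat

variable {ι : Type} (S : Finset ι) (m x : ι → ℝ) (lam : ℝ)

/-- the linear statistic -/
noncomputable def W (φ : ℝ → ℝ) (t : ℝ) : ℝ := ∑ s ∈ S, m s * φ ((x s - t) * lam)

lemma int_shift {f : ℝ → ℝ} (hlam : 0 < lam) (a : ℝ) :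
    ∫ t, f ((a - t) * lam) = lam⁻¹ * ∫ v, f v := by
  have h1 : ∫ t, f ((a - t) * lam) = ∫ t, f (t * lam) :=
    integral_sub_left_eq_self (fun t => f (t * lam)) volume a
  rw [h1, Measure.integral_comp_mul_right, abs_of_pos (inv_pos.2 hlam), smul_eq_mul]

lemma integrable_shift {f : ℝ → ℝ} (hf : Integrable f) (hlam : 0 < lam) (a : ℝ) :
    Integrable fun t => f ((a - t) * lam) := by
  have h1 : Integrable fun t => f (t * lam) := hf.comp_mul_right' hlam.ne'
  exact h1.comp_sub_left a

lemma Wt.W_int (h : Wt g φ δ K) (hlam : 0 < lam) : Integrable (W S m x lam φ) := by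
  unfold W
  exact integrable_finsetSum _ fun s _ => (integrable_shift lam h.phi_int hlam _).const_mul _

lemma Wt.W_total (h : Wt g φ δ K) (hlam : 0 < lam) :
    ∫ t, W S m x lam φ t = lam⁻¹ * (∑ s ∈ S, m s) * g 0 := by
  unfold W
  rw [integral_finsetSum _ fun s _ => (integrable_shift lam h.phi_int hlam _).const_mul _,
    Finset.mul_sum, Finset.sum_mul]
  refine Finset.sum_congr rfl fun s _ => ?_
  rw [integral_const_mul, int_shift lam hlam, h.total]
  ring

lemma Wt.prod_int (h : Wt g φ δ K) (hlam : 0 < lam) (a b : ℝ) :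
    Integrable fun t => φ ((a - t) * lam) * φ ((b - t) * lam) := by
  refine ((integrable_shift lam h.phi_int hlam a).const_mul K).mono' ?_
    (Filter.Eventually.of_forall fun t => ?_)
  · apply Continuous.aestronglyMeasurable
    have := h.phi_cont
    fun_prop
  · rw [norm_mul, Real.norm_eq_abs, Real.norm_eq_abs, abs_of_nonneg (h.phi0 _),
      abs_of_nonneg (h.phi0 _), mul_comm K]
    exact mul_le_mul_of_nonneg_left (h.phi_leK _) (h.phi0 _)

lemma Wt.W_sq (h : Wt g φ δ K) (hlam : 0 < lam) :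
    Integrable (fun t => W S m x lam φ t ^ 2) ∧ ∫ t, W S m x lam φ t ^ 2 =
      lam⁻¹ * ∑ s ∈ S, ∑ s' ∈ S, m s * m s' *
        ∫ α, g α ^ 2 * Real.cos (2 * Real.pi * α * ((x s - x s') * lam)) := by
  have e : ∀ t, W S m x lam φ t ^ 2 = ∑ s ∈ S, ∑ s' ∈ S,
      m s * m s' * (φ ((x s - t) * lam) * φ ((x s' - t) * lam)) := by
    intro t
    unfold W
    rw [sq, Finset.sum_mul_sum]
    refine Finset.sum_congr rfl fun s _ => Finset.sum_congr rfl fun s' _ => ?_
    ring
  simp_rw [e]
  have hi : ∀ s s', Integrable fun t =>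
      m s * m s' * (φ ((x s - t) * lam) * φ ((x s' - t) * lam)) := fun s s' =>
    (h.prod_int lam hlam _ _).const_mul _
  refine ⟨integrable_finsetSum _ fun s _ => integrable_finsetSum _ fun s' _ => hi s s', ?_⟩
  rw [integral_finsetSum _ fun s _ => integrable_finsetSum _ fun s' _ => hi s s', Finset.mul_sum]
  refine Finset.sum_congr rfl fun s _ => ?_
  rw [integral_finsetSum _ fun s' _ => hi s s', Finset.mul_sum]
  refine Finset.sum_congr rfl fun s' _ => ?_
  rw [integral_const_mul]
  have e2 : ∫ t, φ ((x s - t) * lam) * φ ((x s' - t) * lam) =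
      lam⁻¹ * ∫ v, φ v * φ (v + (x s' - x s) * lam) := by
    rw [← int_shift (f := fun v => φ v * φ (v + (x s' - x s) * lam)) lam hlam (x s)]
    congr 1
    funext t
    have : (x s - t) * lam + (x s' - x s) * lam = (x s' - t) * lam := by ring
    simp only [this]
  rw [e2, h.autocorr]
  have e3 : ∫ α, g α ^ 2 * Real.cos (2 * Real.pi * α * ((x s' - x s) * lam)) =
      ∫ α, g α ^ 2 * Real.cos (2 * Real.pi * α * ((x s - x s') * lam)) := by
    congr 1
    funext α
    have : 2 * Real.pi * α * ((x s' - x s) * lam) = -(2 * Real.pi * α * ((x s - x s') * lam)) := by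
      ring
    rw [this, Real.cos_neg]
  rw [e3]
  ring

end stat

end Pool.Agent.R846.NR
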