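import Pool.Agent.R846.NR.Abs

/-! # Rigidity from a variance bound: the abstract part -/

set_option autoImplicit false

open Finset MeasureTheory Set Filter Topology

namespace Pool.Agent.R846.NR

variable {g φ : ℝ → ℝ} {δ K : ℝ}

lemma Wt.tail_le (h : Wt g φ δ K) {A : ℝ} (hA : 0 < A) : ∫ v in Ioi A, φ v ≤ K / A := by
  have hK := h.K0
  have h1 : ∫ v in Ioi A, φ v ≤ ∫ v in Ioi A, K * v ^ (-2 : ℝ) := by
    apply setIntegral_mono_on h.phi_int.integrableOn
      ((integrableOn_Ioi_rpow_of_lt (by norm_num) hA).const_mul K) measurableSet_Ioi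
    intro v hv
    have hv0 : 0 < v := hA.trans hv
    have h2 := h.phiK v
    have h3 := h.phi0 v
    rw [Real.rpow_neg hv0.le, ← div_eq_mul_inv, le_div_iff₀ (by positivity)]
    have e : v ^ (2 : ℝ) = v ^ 2 := by norm_cast
    rw [e]
    nlinarith
  refine h1.trans (le_of_eq ?_)
  rw [integral_const_mul, integral_Ioi_rpow_of_lt (by norm_num) hA]
  have e : A ^ (-2 + 1 : ℝ) = A⁻¹ := by
    have : (-2 + 1 : ℝ) = -1 := by norm_num
    rw [this, Real.rpow_neg_one]
  rw [e]
  field_simp
  ring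

lemma Wt.tail_le' (h : Wt g φ δ K) {η : ℝ} (hη : 0 < η) : ∃ C : ℝ, 0 ≤ C ∧ ∀ v0 : ℝ, 0 ≤ v0 →
    ∫ v in Ioi v0, φ v ≤ η + C * (1 / (1 + v0 ^ 2)) := by
  have hK := h.K0
  have hg := h.g0 0
  refine ⟨g 0 * (1 + (K / η) ^ 2), by positivity, fun v0 hv0 => ?_⟩
  have h0 : 0 ≤ g 0 * (1 + (K / η) ^ 2) * (1 / (1 + v0 ^ 2)) := by positivity
  rcases lt_or_ge v0 (K / η) with h1 | h1
  · have h2 : ∫ v in Ioi v0, φ v ≤ g 0 := by
      rw [← h.total]
      exact setIntegral_le_integral h.phi_int (Filter.Eventually.of_forall h.phi0)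
    have h3 : g 0 ≤ g 0 * (1 + (K / η) ^ 2) * (1 / (1 + v0 ^ 2)) := by
      rw [mul_one_div, le_div_iff₀ (by positivity)]
      apply mul_le_mul_of_nonneg_left _ hg
      have : v0 ^ 2 ≤ (K / η) ^ 2 := pow_le_pow_left₀ hv0 h1.le 2
      linarith
    linarith
  · rcases hv0.lt_or_eq with h2 | h2
    · have h3 := h.tail_le h2
      have h4 : K / v0 ≤ η := by
        rw [div_le_iff₀ h2]
        rw [div_le_iff₀ hη] at h1
        linarith
      linarith
    · have hK0 : K = 0 := by
        rw [← h2] at h1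
        have : K / η = 0 := le_antisymm h1 (by positivity)
        rcases div_eq_zero_iff.1 this with h | h
        · exact h
        · exact absurd h hη.ne'
      have h3 : ∀ v, φ v = 0 := fun v => le_antisymm (by
        have := h.phi_leK v
        rwa [hK0] at this) (h.phi0 v)
      simp only [h3, integral_zero]
      linarith

lemma Wt.tail_neg (h : Wt g φ δ K) (v0 : ℝ) : ∫ v in Iio v0, φ v = ∫ v in Ioi (-v0), φ v := by
  have h1 := integral_comp_neg_Iic v0 φ
  rw [← h1, integral_Iic_eq_integral_Iio]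
  congr 1
  funext v
  rw [h.phi_even]

/-- the two tails -/
lemma Wt.tails (h : Wt g φ δ K) {A : ℝ} (hA : 0 < A) :
    ∫ v, {v | A < |v|}.indicator φ v ≤ 2 * K / A := by
  have hm : MeasurableSet {v : ℝ | A < |v|} :=
    (isOpen_lt continuous_const continuous_abs).measurableSet
  rw [integral_indicator hm]
  have e : {v : ℝ | A < |v|} = Ioi A ∪ Iio (-A) := by
    ext v
    simp only [Set.mem_ofPred_eq, lt_abs, Set.mem_union, Set.mem_Ioi, Set.mem_Iio]
    constructor
    · rintro (h | h)
      · exact Or.inl h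
      · exact Or.inr (by linarith)
    · rintro (h | h)
      · exact Or.inl h
      · exact Or.inr (by linarith)
  rw [e, setIntegral_union (by
    rw [Set.disjoint_left]
    intro v h1 h2
    simp only [Set.mem_Ioi, Set.mem_Iio] at h1 h2
    linarith) measurableSet_Iio h.phi_int.integrableOn h.phi_int.integrableOn, h.tail_neg, neg_neg]
  have := h.tail_le hA
  have e2 : 2 * K / A = K / A + K / A := by ring
  rw [e2]
  linarith

section stat

variable {ι : Type} (S : Finset ι) (m x : ι → ℝ) (lam : ℝ)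

lemma W_total' {f : ℝ → ℝ} (hf : Integrable f) (hlam : 0 < lam) :
    Integrable (W S m x lam f) ∧ ∫ t, W S m x lam f t = lam⁻¹ * (∑ s ∈ S, m s) * ∫ v, f v := by
  unfold W
  have hi : ∀ s ∈ S, Integrable fun t => m s * f ((x s - t) * lam) := fun s _ =>
    (integrable_shift lam hf hlam _).const_mul _
  refine ⟨integrable_finsetSum _ hi, ?_⟩
  rw [integral_finsetSum _ hi, Finset.mul_sum, Finset.sum_mul]
  refine Finset.sum_congr rfl fun s _ => ?_
  rw [integral_const_mul, int_shift lam hlam]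
  ring

/-- the mass outside a block -/
lemma Wt.out_bound (h : Wt g φ δ K) {η C : ℝ} (hC : 0 ≤ C)
    (hb : ∀ v0 : ℝ, 0 ≤ v0 → ∫ v in Ioi v0, φ v ≤ η + C * (1 / (1 + v0 ^ 2)))
    (hlam : 1 ≤ lam) (hm : ∀ s ∈ S, 0 ≤ m s) {T1 T2 : ℝ} (hx : ∀ s ∈ S, T1 ≤ x s ∧ x s ≤ T2) :
    ∫ t in (Icc T1 T2)ᶜ, W S m x lam φ t ≤ lam⁻¹ * (2 * η * (∑ s ∈ S, m s) +
      C * (∑ s ∈ S, m s * (1 / (1 + (x s - T1) ^ 2)) +
        ∑ s ∈ S, m s * (1 / (1 + (x s - T2) ^ 2)))) := by
  have hl : 0 < lam := by linarith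
  unfold W
  have hi : ∀ s ∈ S, Integrable (fun t => m s * φ ((x s - t) * lam))
      (volume.restrict (Icc T1 T2)ᶜ) := fun s _ =>
    ((integrable_shift lam h.phi_int hl _).const_mul _).restrict
  rw [integral_finsetSum _ hi]
  have key : ∀ s ∈ S, ∫ t in (Icc T1 T2)ᶜ, m s * φ ((x s - t) * lam) ≤
      lam⁻¹ * (m s * (2 * η) + C * (m s * (1 / (1 + (x s - T1) ^ 2)) +
        m s * (1 / (1 + (x s - T2) ^ 2)))) := by
    intro s hs
    obtain ⟨hx1, hx2⟩ := hx s hs
    rw [integral_const_mul]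
    have e : (Icc T1 T2)ᶜ ⊆ Iio T1 ∪ Ioi T2 := by
      intro t ht
      simp only [Set.mem_compl_iff, Set.mem_Icc, not_and_or, not_le] at ht
      rcases ht with h | h
      · exact Or.inl h
      · exact Or.inr h
    have hint := integrable_shift lam h.phi_int hl (x s)
    have h1 : ∫ t in (Icc T1 T2)ᶜ, φ ((x s - t) * lam) ≤
        ∫ t in Iio T1 ∪ Ioi T2, φ ((x s - t) * lam) :=
      setIntegral_mono_set hint.integrableOn (Filter.Eventually.of_forall fun t => h.phi0 _)
        (LE.le.eventuallyLE e)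
    have h2 : ∫ t in Iio T1 ∪ Ioi T2, φ ((x s - t) * lam) ≤
        (∫ t in Iio T1, φ ((x s - t) * lam)) + ∫ t in Ioi T2, φ ((x s - t) * lam) := by
      rw [setIntegral_union (by
        rw [Set.disjoint_left]
        intro v h1 h2
        simp only [Set.mem_Ioi, Set.mem_Iio] at h1 h2
        linarith) measurableSet_Ioi hint.integrableOn hint.integrableOn]
    have e1 : ∫ t in Iio T1, φ ((x s - t) * lam) =
        lam⁻¹ * ∫ v in Ioi ((x s - T1) * lam), φ v := by
      rw [← integral_indicator measurableSet_Iio, ← integral_indicator measurableSet_Ioi,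
        ← int_shift (f := (Ioi ((x s - T1) * lam)).indicator φ) lam hl (x s)]
      congr 1
      funext t
      by_cases ht : t < T1
      · rw [Set.indicator_of_mem (by exact ht), Set.indicator_of_mem]
        show (x s - T1) * lam < (x s - t) * lam
        exact mul_lt_mul_of_pos_right (by linarith) hl
      · rw [Set.indicator_of_notMem (by exact ht), Set.indicator_of_notMem]
        show ¬ (x s - T1) * lam < (x s - t) * lam
        push Not at ht ⊢
        exact mul_le_mul_of_nonneg_right (by linarith) hl.le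
    have e2 : ∫ t in Ioi T2, φ ((x s - t) * lam) =
        lam⁻¹ * ∫ v in Ioi ((T2 - x s) * lam), φ v := by
      have e3 : (T2 - x s) * lam = -((x s - T2) * lam) := by ring
      rw [e3, ← h.tail_neg]
      rw [← integral_indicator measurableSet_Iio, ← integral_indicator measurableSet_Ioi,
        ← int_shift (f := (Iio ((x s - T2) * lam)).indicator φ) lam hl (x s)]
      congr 1
      funext t
      by_cases ht : T2 < t
      · rw [Set.indicator_of_mem (by exact ht), Set.indicator_of_mem]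
        show (x s - t) * lam < (x s - T2) * lam
        exact mul_lt_mul_of_pos_right (by linarith) hl
      · rw [Set.indicator_of_notMem (by exact ht), Set.indicator_of_notMem]
        show ¬ (x s - t) * lam < (x s - T2) * lam
        push Not at ht ⊢
        exact mul_le_mul_of_nonneg_right (by linarith) hl.le
    have f1 : ∀ d : ℝ, 0 ≤ d → ∫ v in Ioi (d * lam), φ v ≤ η + C * (1 / (1 + d ^ 2)) := by
      intro d hd
      refine (hb (d * lam) (by positivity)).trans ?_
      have : 1 / (1 + (d * lam) ^ 2) ≤ 1 / (1 + d ^ 2) := by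
        apply div_le_div_of_nonneg_left zero_le_one (by positivity)
        have : d ^ 2 ≤ (d * lam) ^ 2 := by
          apply pow_le_pow_left₀ hd
          nlinarith
        linarith
      have := mul_le_mul_of_nonneg_left this hC
      linarith
    have g1 := f1 (x s - T1) (by linarith)
    have g2 := f1 (T2 - x s) (by linarith)
    have e4 : (T2 - x s) ^ 2 = (x s - T2) ^ 2 := by ring
    rw [e4] at g2
    have hli : 0 < lam⁻¹ := inv_pos.2 hl
    have g3 : ∫ t in (Icc T1 T2)ᶜ, φ ((x s - t) * lam) ≤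
        lam⁻¹ * (η + C * (1 / (1 + (x s - T1) ^ 2))) +
        lam⁻¹ * (η + C * (1 / (1 + (x s - T2) ^ 2))) := by
      refine (h1.trans h2).trans ?_
      rw [e1, e2]
      exact add_le_add (mul_le_mul_of_nonneg_left g1 hli.le) (mul_le_mul_of_nonneg_left g2 hli.le)
    calc m s * ∫ t in (Icc T1 T2)ᶜ, φ ((x s - t) * lam) ≤
        m s * (lam⁻¹ * (η + C * (1 / (1 + (x s - T1) ^ 2))) +
        lam⁻¹ * (η + C * (1 / (1 + (x s - T2) ^ 2)))) := mul_le_mul_of_nonneg_left g3 (hm s hs)
      _ = _ := by ring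
  refine (Finset.sum_le_sum key).trans (le_of_eq ?_)
  rw [← Finset.mul_sum]
  congr 1
  rw [Finset.sum_add_distrib, ← Finset.mul_sum, Finset.sum_add_distrib, ← Finset.sum_mul]
  ring

/-- the variance bound -/
lemma Wt.variance (h : Wt g φ δ K) (hlam : 1 ≤ lam) {T1 T2 Q B : ℝ}
    (hT : T1 ≤ T2)
    (hQ : ∑ s ∈ S, ∑ s' ∈ S, m s * m s' *
        ∫ α, g α ^ 2 * Real.cos (2 * Real.pi * α * ((x s - x s') * lam)) ≤ Q)
    (hB : ∫ t in (Icc T1 T2)ᶜ, W S m x lam φ t ≤ B) :
    ∫ t in Icc T1 T2, (W S m x lam φ t - g 0) ^ 2 ≤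
      lam⁻¹ * Q - g 0 ^ 2 * (2 * (lam⁻¹ * ∑ s ∈ S, m s) - (T2 - T1)) + 2 * g 0 * B := by
  have hl : 0 < lam := by linarith
  obtain ⟨hi2, h2⟩ := h.W_sq S m x lam hl
  have hi1 := h.W_int S m x lam hl
  have h1 := h.W_total S m x lam hl
  have e : ∀ t, (W S m x lam φ t - g 0) ^ 2 =
      W S m x lam φ t ^ 2 - (2 * g 0 * W S m x lam φ t - g 0 ^ 2) := fun t => by ring
  simp_rw [e]
  have j0 : Integrable (fun t => W S m x lam φ t ^ 2) (volume.restrict (Icc T1 T2)) := hi2.restrict
  have j1 : Integrable (fun t => 2 * g 0 * W S m x lam φ t) (volume.restrict (Icc T1 T2)) :=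
    hi1.restrict.const_mul _
  have j2 : Integrable (fun _ : ℝ => g 0 ^ 2) (volume.restrict (Icc T1 T2)) := by simp
  have j3 : Integrable (fun t => 2 * g 0 * W S m x lam φ t - g 0 ^ 2)
      (volume.restrict (Icc T1 T2)) := j1.sub j2
  rw [integral_sub j0 j3, integral_sub j1 j2, integral_const_mul]
  have h3 : ∫ t in Icc T1 T2, W S m x lam φ t ^ 2 ≤ ∫ t, W S m x lam φ t ^ 2 :=
    setIntegral_le_integral hi2 (Filter.Eventually.of_forall fun t => sq_nonneg _)
  have h4 : ∫ t in Icc T1 T2, W S m x lam φ t =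
      (∫ t, W S m x lam φ t) - ∫ t in (Icc T1 T2)ᶜ, W S m x lam φ t := by
    rw [← integral_add_compl (measurableSet_Icc (a := T1) (b := T2)) hi1]
    ring
  have h5 : ∫ _t in Icc T1 T2, g 0 ^ 2 = g 0 ^ 2 * (T2 - T1) := by
    rw [setIntegral_const, Measure.real, Real.volume_Icc, ENNReal.toReal_ofReal (by linarith),
      smul_eq_mul, mul_comm]
  rw [h4, h5, h1]
  have h6 : lam⁻¹ * ∑ s ∈ S, ∑ s' ∈ S, m s * m s' *
        ∫ α, g α ^ 2 * Real.cos (2 * Real.pi * α * ((x s - x s') * lam)) ≤ lam⁻¹ * Q :=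
    mul_le_mul_of_nonneg_left hQ (inv_nonneg.2 hl.le)
  have hg := h.g0 0
  have h7 : 2 * g 0 * ∫ t in (Icc T1 T2)ᶜ, W S m x lam φ t ≤ 2 * g 0 * B :=
    mul_le_mul_of_nonneg_left hB (by linarith)
  rw [← h2] at h6
  nlinarith

/-- the number of points in `B` -/
noncomputable def numS (t : ℝ) (B : Set ℝ) : ℝ := by
  classical
  exact ∑ s ∈ S, if (x s - t) * lam ∈ B then m s else 0

/-- the weighted number of the other points at distance `≤ A` -/
noncomputable def outS (φ : ℝ → ℝ) (A t : ℝ) (B : Set ℝ) : ℝ := by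
  classical
  exact ∑ s ∈ S, if |(x s - t) * lam| ≤ A ∧ (x s - t) * lam ∉ B then
    m s * φ ((x s - t) * lam) else 0

/-- **rigidity**, abstract form -/
theorem Wt.rigid (h : Wt g φ δ K) (hφ1 : ∀ x, φ x ≤ 1) (hlam : 1 ≤ lam)
    (hm : ∀ s ∈ S, 0 ≤ m s) {T1 T2 M A ε E1 e3 N : ℝ} (hM : 0 < M)
    (hMA : M ≤ A) (hε : 0 < ε)
    (hN : lam⁻¹ * ∑ s ∈ S, m s ≤ N)
    (hE1 : ∫ t in Icc T1 T2, (W S m x lam φ t - g 0) ^ 2 ≤ E1)
    (hnear : ∀ v, |v| ≤ M → 1 - e3 ≤ φ v) :
    ∃ E : Set ℝ, volume E ≤ ENNReal.ofReal (9 / ε ^ 2 * E1 + 3 / ε * (N * (2 * K / A)) +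
        3 / ε * (N * (2 * M * e3))) ∧
      ∀ t, T1 ≤ t → t ≤ T2 → t ∉ E → ∀ B : Set ℝ, B ⊆ Icc (-M) M →
        |numS S m x lam t B - (g 0 - outS S m x lam φ A t B)| ≤ ε := by
  classical
  have hl : 0 < lam := by linarith
  have hA : 0 < A := hM.trans_le hMA
  have hK := h.K0
  have hN0 : 0 ≤ lam⁻¹ * ∑ s ∈ S, m s := mul_nonneg (inv_nonneg.2 hl.le) (Finset.sum_nonneg hm)
  set φA : ℝ → ℝ := {v | A < |v|}.indicator φ with hφA
  set ψ : ℝ → ℝ := {v | |v| ≤ M}.indicator (fun v => 1 - φ v) with hψ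
  have hmA : MeasurableSet {v : ℝ | A < |v|} :=
    (isOpen_lt continuous_const continuous_abs).measurableSet
  have hmM : MeasurableSet {v : ℝ | |v| ≤ M} :=
    (isClosed_le continuous_abs continuous_const).measurableSet
  have hIcc : {v : ℝ | |v| ≤ M} = Icc (-M) M := by
    ext v
    simp only [Set.mem_ofPred_eq, abs_le, Set.mem_Icc]
  have hφAi : Integrable φA := h.phi_int.indicator hmA
  have hψi : Integrable ψ := by
    rw [hψ, integrable_indicator_iff hmM, hIcc]
    exact (continuous_const.sub h.phi_cont).integrableOn_Icc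
  have hφA0 : ∀ v, 0 ≤ φA v := fun v => Set.indicator_nonneg (fun _ _ => h.phi0 _) v
  have hψ0 : ∀ v, 0 ≤ ψ v := fun v => Set.indicator_nonneg (fun _ _ => by linarith [hφ1 ‹_›]) v
  have hW0 : ∀ f : ℝ → ℝ, (∀ v, 0 ≤ f v) → ∀ t, 0 ≤ W S m x lam f t := fun f hf t =>
    Finset.sum_nonneg fun s hs => mul_nonneg (hm s hs) (hf _)
  obtain ⟨i1, t1⟩ := W_total' S m x lam hφAi hl
  obtain ⟨i2, t2⟩ := W_total' S m x lam hψi hl
  have b1 : ∫ t in Icc T1 T2, W S m x lam φA t ≤ N * (2 * K / A) := by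
    refine (setIntegral_le_integral i1 (Filter.Eventually.of_forall (hW0 _ hφA0))).trans ?_
    rw [t1]
    have h1 := h.tails hA
    have h2 : 0 ≤ ∫ v, φA v := integral_nonneg hφA0
    calc lam⁻¹ * (∑ s ∈ S, m s) * ∫ v, φA v ≤ N * ∫ v, φA v := mul_le_mul_of_nonneg_right hN h2
      _ ≤ N * (2 * K / A) := mul_le_mul_of_nonneg_left h1 (hN0.trans hN)
  have b2 : ∫ t in Icc T1 T2, W S m x lam ψ t ≤ N * (2 * M * e3) := by
    refine (setIntegral_le_integral i2 (Filter.Eventually.of_forall (hW0 _ hψ0))).trans ?_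
    rw [t2]
    have h1 : ∫ v, ψ v ≤ 2 * M * e3 := by
      rw [hψ, integral_indicator hmM, hIcc]
      have h3 : ∫ v in Icc (-M) M, (1 - φ v) ≤ ∫ _v in Icc (-M) M, e3 := by
        apply setIntegral_mono_on (continuous_const.sub h.phi_cont).integrableOn_Icc (by simp)
          measurableSet_Icc
        intro v hv
        have := hnear v (abs_le.2 hv)
        show 1 - φ v ≤ e3
        linarith
      refine h3.trans (le_of_eq ?_)
      rw [setIntegral_const, Measure.real, Real.volume_Icc, ENNReal.toReal_ofReal (by linarith),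
        smul_eq_mul]
      ring
    have h2 : 0 ≤ ∫ v, ψ v := integral_nonneg hψ0
    calc lam⁻¹ * (∑ s ∈ S, m s) * ∫ v, ψ v ≤ N * ∫ v, ψ v := mul_le_mul_of_nonneg_right hN h2
      _ ≤ N * (2 * M * e3) := mul_le_mul_of_nonneg_left h1 (hN0.trans hN)
  set D : ℝ → ℝ := fun t => 9 / ε ^ 2 * (W S m x lam φ t - g 0) ^ 2 + 3 / ε * W S m x lam φA t +
    3 / ε * W S m x lam ψ t with hD
  have hD0 : ∀ t, 0 ≤ D t := fun t => by
    have a1 := hW0 _ hφA0 t
    have a2 := hW0 _ hψ0 t
    simp only [hD]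
    positivity
  have hi0 : IntegrableOn (fun t => (W S m x lam φ t - g 0) ^ 2) (Icc T1 T2) := by
    have e : ∀ t, (W S m x lam φ t - g 0) ^ 2 =
        W S m x lam φ t ^ 2 - (2 * g 0 * W S m x lam φ t - g 0 ^ 2) := fun t => by ring
    simp_rw [e]
    exact (h.W_sq S m x lam hl).1.integrableOn.sub
      (((h.W_int S m x lam hl).integrableOn.const_mul _).sub (by simp))
  have hDi : IntegrableOn D (Icc T1 T2) :=
    ((hi0.const_mul _).add (i1.integrableOn.const_mul _)).add (i2.integrableOn.const_mul _)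
  have hDb : ∫ t in Icc T1 T2, D t ≤ 9 / ε ^ 2 * E1 + 3 / ε * (N * (2 * K / A)) +
        3 / ε * (N * (2 * M * e3)) := by
    simp only [hD]
    have k0 : Integrable (fun t => 9 / ε ^ 2 * (W S m x lam φ t - g 0) ^ 2)
      (volume.restrict (Icc T1 T2)) := hi0.const_mul _
    have k1 : Integrable (fun t => 3 / ε * W S m x lam φA t)
      (volume.restrict (Icc T1 T2)) := i1.restrict.const_mul _
    have k2 : Integrable (fun t => 3 / ε * W S m x lam ψ t)
      (volume.restrict (Icc T1 T2)) := i2.restrict.const_mul _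
    have k3 : Integrable (fun t => 9 / ε ^ 2 * (W S m x lam φ t - g 0) ^ 2 +
      3 / ε * W S m x lam φA t) (volume.restrict (Icc T1 T2)) := k0.add k1
    rw [integral_add k3 k2, integral_add k0 k1, integral_const_mul, integral_const_mul,
      integral_const_mul]
    gcongr
  have hmark := mul_meas_ge_le_integral_of_nonneg (μ := volume.restrict (Icc T1 T2))
    (Filter.Eventually.of_forall hD0) hDi 1
  rw [one_mul] at hmark
  refine ⟨{t | 1 ≤ D t} ∩ Icc T1 T2, ?_, ?_⟩
  · have hfin : volume.restrict (Icc T1 T2) {t | 1 ≤ D t} ≠ ⊤ := by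
      refine ne_top_of_le_ne_top ?_ (measure_mono (Set.subset_univ _))
      rw [Measure.restrict_apply_univ, Real.volume_Icc]
      exact ENNReal.ofReal_ne_top
    have h1 : volume ({t | 1 ≤ D t} ∩ Icc T1 T2) = volume.restrict (Icc T1 T2) {t | 1 ≤ D t} := by
      rw [Measure.restrict_apply' measurableSet_Icc]
    rw [h1, ← ENNReal.ofReal_toReal hfin]
    apply ENNReal.ofReal_le_ofReal
    exact hmark.trans hDb
  · intro t ht1 ht2 htE B hB
    have hDt : D t < 1 := by
      by_contra hcon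
      push Not at hcon
      exact htE ⟨hcon, ht1, ht2⟩
    have a0 := hW0 _ hφA0 t
    have a1 := hW0 _ hψ0 t
    have a2 : 0 ≤ (W S m x lam φ t - g 0) ^ 2 := sq_nonneg _
    simp only [hD] at hDt
    have c1 : 0 ≤ 9 / ε ^ 2 * (W S m x lam φ t - g 0) ^ 2 := by positivity
    have c2 : 0 ≤ 3 / ε * W S m x lam φA t := by positivity
    have c3 : 0 ≤ 3 / ε * W S m x lam ψ t := by positivity
    have d1 : |W S m x lam φ t - g 0| ≤ ε / 3 := by
      apply abs_le_of_sq_le_sq _ (by positivity)
      have : 9 / ε ^ 2 * (W S m x lam φ t - g 0) ^ 2 ≤ 1 := by linarith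
      rw [div_mul_eq_mul_div, div_le_one (by positivity)] at this
      nlinarith
    have d2 : W S m x lam φA t ≤ ε / 3 := by
      have : 3 / ε * W S m x lam φA t ≤ 1 := by linarith
      rw [div_mul_eq_mul_div, div_le_one hε] at this
      linarith
    have d3 : W S m x lam ψ t ≤ ε / 3 := by
      have : 3 / ε * W S m x lam ψ t ≤ 1 := by linarith
      rw [div_mul_eq_mul_div, div_le_one hε] at this
      linarith
    -- the decomposition
    set u : ι → ℝ := fun s => (x s - t) * lam with hu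
    set DB : ℝ := ∑ s ∈ S, if u s ∈ B then m s * (1 - φ (u s)) else 0 with hDB
    have hDB0 : 0 ≤ DB := Finset.sum_nonneg fun s hs => by
      split_ifs
      · exact mul_nonneg (hm s hs) (by linarith [hφ1 (u s)])
      · exact le_rfl
    have hDB1 : DB ≤ W S m x lam ψ t := by
      unfold W
      refine Finset.sum_le_sum fun s hs => ?_
      split_ifs with hb
      · have : |u s| ≤ M := abs_le.2 (hB hb)
        have e : ψ (u s) = 1 - φ (u s) := Set.indicator_of_mem (by exact this) _
        show m s * (1 - φ (u s)) ≤ m s * ψ (u s)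
        rw [e]
      · exact mul_nonneg (hm s hs) (hψ0 _)
    have hdec : numS S m x lam t B - (g 0 - outS S m x lam φ A t B) =
        DB + (W S m x lam φ t - g 0) - W S m x lam φA t := by
      have : numS S m x lam t B + outS S m x lam φ A t B + W S m x lam φA t =
          DB + W S m x lam φ t := by
        unfold numS outS W
        rw [← Finset.sum_add_distrib, ← Finset.sum_add_distrib, ← Finset.sum_add_distrib]
        refine Finset.sum_congr rfl fun s _ => ?_
        show (if u s ∈ B then m s else 0) + (if |u s| ≤ A ∧ u s ∉ B then m s * φ (u s) else 0) +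
          m s * φA (u s) = (if u s ∈ B then m s * (1 - φ (u s)) else 0) + m s * φ (u s)
        by_cases hb : u s ∈ B
        · have h1 : |u s| ≤ M := abs_le.2 (hB hb)
          have h2 : φA (u s) = 0 := Set.indicator_of_notMem (by
            show ¬ A < |u s|
            push Not
            exact h1.trans hMA) _
          rw [if_pos hb, if_neg (by tauto), if_pos hb, h2]
          ring
        · rw [if_neg hb, if_neg hb]
          by_cases ha : |u s| ≤ A
          · have h2 : φA (u s) = 0 := Set.indicator_of_notMem (by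
              show ¬ A < |u s|
              push Not
              exact ha) _
            rw [if_pos ⟨ha, hb⟩, h2]
            ring
          · have h2 : φA (u s) = φ (u s) := Set.indicator_of_mem (by
              show A < |u s|
              push Not at ha
              exact ha) _
            rw [if_neg (by tauto), h2]
            ring
      linarith
    rw [hdec]
    rw [abs_le] at d1 ⊢
    constructor <;> linarith [d1.1, d1.2]

end stat

end Pool.Agent.R846.NR
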