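import Pool.Agent.H345R2.A2.Four
import Pool.Agent.R846.NR.Abs

/-! # The explicit weights: averages of dyadic dilates of the Fejér kernel -/

set_option autoImplicit false

open Finset MeasureTheory Set Filter Topology

namespace Pool.Agent.R846.NR

/-- the triangle function of width `b` and integral `1` -/
noncomputable def tri (b α : ℝ) : ℝ := max 0 (1 - |α| / b) / b

lemma tri_cont (b : ℝ) : Continuous (tri b) := by unfold tri; fun_prop

lemma tri_even (b α : ℝ) : tri b (-α) = tri b α := by unfold tri; rw [abs_neg]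

lemma tri_nonneg {b : ℝ} (hb : 0 < b) (α : ℝ) : 0 ≤ tri b α := by
  unfold tri
  have := le_max_left (0 : ℝ) (1 - |α| / b)
  positivity

lemma tri_le {b : ℝ} (hb : 0 < b) (α : ℝ) : tri b α ≤ 1 / b := by
  unfold tri
  apply div_le_div_of_nonneg_right _ hb.le
  apply max_le zero_le_one
  have : 0 ≤ |α| / b := by positivity
  linarith

lemma tri_zero {b α : ℝ} (hb : 0 < b) (h : b ≤ |α|) : tri b α = 0 := by
  unfold tri
  rw [max_eq_left, zero_div]
  have : 1 ≤ |α| / b := by rwa [le_div_iff₀ hb, one_mul]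
  linarith

lemma tri_eq {b α : ℝ} (hb : 0 < b) (h : |α| ≤ b) : tri b α = (1 - |α| / b) / b := by
  unfold tri
  rw [max_eq_right]
  have : |α| / b ≤ 1 := by rwa [div_le_one hb]
  linarith

lemma tri_lip {b : ℝ} (hb : 0 < b) (x y : ℝ) : |tri b x - tri b y| ≤ (1 / b) ^ 2 * |x - y| := by
  unfold tri
  rw [← sub_div, abs_div, abs_of_pos hb, div_le_iff₀ hb]
  have h1 : |max 0 (1 - |x| / b) - max 0 (1 - |y| / b)| ≤ |(1 - |x| / b) - (1 - |y| / b)| := by
    have := abs_max_sub_max_le_abs (1 - |x| / b) (1 - |y| / b) 0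
    rwa [max_comm, max_comm (1 - |y| / b)] at this
  refine h1.trans ?_
  have e1 : (1 - |x| / b) - (1 - |y| / b) = (|y| - |x|) / b := by ring
  rw [e1, abs_div, abs_of_pos hb, div_le_iff₀ hb]
  have e2 : (1 / b) ^ 2 * |x - y| * b * b = |x - y| := by field_simp
  rw [e2, abs_sub_comm x y]
  exact abs_abs_sub_abs_le_abs_sub y x

lemma tri_fourier {b : ℝ} (hb : 0 < b) (x : ℝ) :
    ∫ α, tri b α * Real.cos (2 * Real.pi * α * x) = Real.sinc (Real.pi * b * x) ^ 2 := by
  have h1 : ∫ α, tri b α * Real.cos (2 * Real.pi * α * x) =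
      ∫ α in (-b)..b, tri b α * Real.cos (2 * Real.pi * α * x) := by
    symm
    apply intervalIntegral.integral_eq_integral_of_support_subset
    intro α hα
    by_contra h
    apply hα
    have : b ≤ |α| := by
      by_contra h2
      push Not at h2
      obtain ⟨h3, h4⟩ := abs_lt.1 h2
      exact h ⟨by linarith, by linarith⟩
    show tri b α * _ = 0
    rw [tri_zero hb this, zero_mul]
  have h2 : ∫ α in (-b)..b, tri b α * Real.cos (2 * Real.pi * α * x) =
      ∫ β in (-1 : ℝ)..1, (1 - |β|) * Real.cos (2 * Real.pi * (b * x) * β) := by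
    have h3 := intervalIntegral.smul_integral_comp_mul_left
      (a := (-1 : ℝ)) (b := 1) (fun α => tri b α * Real.cos (2 * Real.pi * α * x)) b
    have e1 : b * (-1 : ℝ) = -b := by ring
    rw [e1, mul_one] at h3
    rw [← h3, smul_eq_mul, ← intervalIntegral.integral_const_mul]
    refine intervalIntegral.integral_congr fun β hβ => ?_
    rw [Set.uIcc_of_le (by norm_num)] at hβ
    have hβ1 : |β| ≤ 1 := abs_le.2 hβ
    show b * (tri b (b * β) * Real.cos (2 * Real.pi * (b * β) * x)) = _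
    have hab : |b * β| = b * |β| := by rw [abs_mul, abs_of_pos hb]
    rw [tri_eq hb (by rw [hab]; nlinarith), hab]
    have e2 : 2 * Real.pi * (b * β) * x = 2 * Real.pi * (b * x) * β := by ring
    rw [e2]
    field_simp
  rw [h1, h2]
  by_cases hx : x = 0
  · rw [hx]
    simp only [mul_zero, zero_mul, Real.cos_zero, mul_one, Real.sinc_zero, one_pow]
    rw [H370.A2.int_sym (fun β => 1 - |β|) (by fun_prop) 1]
    have h4 : ∫ β in (0 : ℝ)..1, (1 - |β| + (1 - |-β|)) = ∫ β in (0 : ℝ)..1, (2 - 2 * β) := by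
      refine intervalIntegral.integral_congr fun β hβ => ?_
      rw [Set.uIcc_of_le zero_le_one] at hβ
      show 1 - |β| + (1 - |-β|) = 2 - 2 * β
      rw [abs_neg, abs_of_nonneg hβ.1]
      ring
    rw [h4, intervalIntegral.integral_sub (by simp)
      ((by fun_prop : Continuous fun β : ℝ => 2 * β).intervalIntegrable _ _)]
    rw [intervalIntegral.integral_const, intervalIntegral.integral_const_mul, integral_id]
    norm_num
  · have hbx : b * x ≠ 0 := mul_ne_zero hb.ne' hx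
    rw [H370.A2.fejer hbx]
    have hne : Real.pi * b * x ≠ 0 := by
      have := Real.pi_pos
      have := mul_ne_zero this.ne' hbx
      rwa [← mul_assoc] at this
    rw [Real.sinc_of_ne_zero hne, mul_assoc]

lemma tri_int {b : ℝ} (hb : 0 < b) : Integrable (tri b) ∧ ∫ α, tri b α = 1 := by
  refine ⟨?_, ?_⟩
  · apply (tri_cont b).integrable_of_hasCompactSupport
    apply HasCompactSupport.intro (isCompact_Icc (a := -b) (b := b))
    intro x hx
    apply tri_zero hb
    by_contra h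
    push Not at h
    obtain ⟨h3, h4⟩ := abs_lt.1 h
    exact hx ⟨h3.le, h4.le⟩
  · have := tri_fourier hb 0
    simpa using this

/-- the interaction of two triangle functions -/
lemma tri_energy {b c : ℝ} (hb : 0 < b) (hc : 0 < c) :
    ∫ α, |α| * (tri b α * tri c α) ≤ c / b := by
  have h1 : ∀ α, |α| * (tri b α * tri c α) ≤ c / b * tri c α := by
    intro α
    have t1 := tri_le hb α
    have t2 := tri_nonneg hb α
    have t3 := tri_nonneg hc α
    rcases le_total c |α| with h | h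
    · rw [tri_zero hc h]
      simp
    · have h2 : |α| * tri b α ≤ c * (1 / b) := by
        apply mul_le_mul h t1 t2 hc.le
      calc |α| * (tri b α * tri c α) = |α| * tri b α * tri c α := by ring
        _ ≤ c * (1 / b) * tri c α := mul_le_mul_of_nonneg_right h2 t3
        _ = _ := by ring
  have h2 : ∫ α, |α| * (tri b α * tri c α) ≤ ∫ α, c / b * tri c α :=
    integral_mono_of_nonneg (Filter.Eventually.of_forall fun α =>
      mul_nonneg (abs_nonneg _) (mul_nonneg (tri_nonneg hb α) (tri_nonneg hc α)))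
      ((tri_int hc).1.const_mul _) (Filter.Eventually.of_forall h1)
  rw [integral_const_mul, (tri_int hc).2, mul_one] at h2
  exact h2

/-- the averaged triangle function -/
noncomputable def gJ (J : ℕ) (a α : ℝ) : ℝ := 1 / (J : ℝ) * ∑ j ∈ range J, tri (a / 2 ^ j) α

/-- the averaged Fejér kernel -/
noncomputable def phiJ (J : ℕ) (a x : ℝ) : ℝ :=
  1 / (J : ℝ) * ∑ j ∈ range J, Real.sinc (Real.pi * (a / 2 ^ j) * x) ^ 2

lemma sinc_sq_bd (y : ℝ) : 0 ≤ Real.sinc y ^ 2 ∧ Real.sinc y ^ 2 ≤ 1 ∧ Real.sinc y ^ 2 * y ^ 2 ≤ 1 ∧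
    1 - y ^ 2 ≤ Real.sinc y ^ 2 := by
  have hle : |Real.sinc y| ≤ 1 := Real.abs_sinc_le_one y
  have h1 : Real.sinc y ^ 2 ≤ 1 := by
    rw [← sq_abs]
    exact pow_le_one₀ (abs_nonneg _) hle
  refine ⟨sq_nonneg _, h1, ?_, ?_⟩
  · by_cases hy : y = 0
    · rw [hy]; simp
    · rw [Real.sinc_of_ne_zero hy, div_pow]
      have : y ^ 2 ≠ 0 := pow_ne_zero 2 hy
      rw [div_mul_cancel₀ _ this]
      exact Real.sin_sq_le_one y
  · rcases le_or_gt 1 |y| with h | h
    · have h2 : 1 ≤ y ^ 2 := by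
        rw [← sq_abs]
        exact one_le_pow₀ h
      nlinarith [sq_nonneg (Real.sinc y)]
    · have key : ∀ z : ℝ, 0 < z → z < 1 → 1 - z ^ 2 ≤ Real.sinc z ^ 2 := by
        intro z hz hz1
        have h3 := Real.sin_gt_sub_cube hz
        have h4 : 1 - z ^ 2 / 4 ≤ Real.sinc z := by
          rw [Real.sinc_of_ne_zero hz.ne', le_div_iff₀ hz]
          nlinarith
        have h5 : 0 ≤ 1 - z ^ 2 / 4 := by nlinarith
        have h6 : (1 - z ^ 2 / 4) ^ 2 ≤ Real.sinc z ^ 2 := pow_le_pow_left₀ h5 h4 2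
        nlinarith [sq_nonneg (z ^ 2)]
      rcases lt_trichotomy y 0 with h0 | h0 | h0
      · have h3 := key (-y) (by linarith) (by rwa [abs_of_neg h0] at h)
        rw [Real.sinc_neg, neg_sq] at h3
        exact h3
      · rw [h0]
        simp
      · exact key y h0 (by rwa [abs_of_pos h0] at h)

section
variable {J : ℕ} {a : ℝ}

lemma scale_pos (ha : 0 < a) (j : ℕ) : 0 < a / 2 ^ j := by positivity

lemma scale_le (ha : 0 < a) (j : ℕ) : a / 2 ^ j ≤ a := by
  apply div_le_self ha.le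
  exact one_le_pow₀ (by norm_num)

lemma scale_inv_le (ha : 0 < a) {j : ℕ} (hj : j < J) : 1 / (a / 2 ^ j) ≤ 2 ^ J / a := by
  rw [one_div_div]
  apply div_le_div_of_nonneg_right _ ha.le
  exact pow_le_pow_right₀ (by norm_num) hj.le

lemma avg_le (hJ : 0 < J) {f : ℕ → ℝ} {B : ℝ} (h : ∀ j ∈ range J, f j ≤ B) :
    1 / (J : ℝ) * ∑ j ∈ range J, f j ≤ B := by
  have hJ' : (0 : ℝ) < J := by exact_mod_cast hJ
  have h1 : ∑ j ∈ range J, f j ≤ J * B := by
    have := Finset.sum_le_card_nsmul (range J) f B h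
    rwa [card_range, nsmul_eq_mul] at this
  calc 1 / (J : ℝ) * ∑ j ∈ range J, f j ≤ 1 / (J : ℝ) * (J * B) := by gcongr
    _ = B := by field_simp

lemma le_avg (hJ : 0 < J) {f : ℕ → ℝ} {B : ℝ} (h : ∀ j ∈ range J, B ≤ f j) :
    B ≤ 1 / (J : ℝ) * ∑ j ∈ range J, f j := by
  have hJ' : (0 : ℝ) < J := by exact_mod_cast hJ
  have h1 : J * B ≤ ∑ j ∈ range J, f j := by
    have := Finset.card_nsmul_le_sum (range J) f B h
    rwa [card_range, nsmul_eq_mul] at this
  calc B = 1 / (J : ℝ) * (J * B) := by field_simp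
    _ ≤ 1 / (J : ℝ) * ∑ j ∈ range J, f j := by gcongr

lemma gJ_cont : Continuous (gJ J a) := by
  unfold gJ
  exact continuous_const.mul (continuous_finsetSum _ fun j _ => tri_cont _)

lemma gJ_nonneg (ha : 0 < a) (α : ℝ) : 0 ≤ gJ J a α := by
  unfold gJ
  exact mul_nonneg (by positivity) (Finset.sum_nonneg fun j _ => tri_nonneg (scale_pos ha j) α)

lemma gJ_le (hJ : 0 < J) (ha : 0 < a) (α : ℝ) : gJ J a α ≤ 2 ^ J / a := by
  apply avg_le hJ
  intro j hj
  exact (tri_le (scale_pos ha j) α).trans (scale_inv_le ha (Finset.mem_range.1 hj))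

lemma gJ_zero (ha : 0 < a) {α : ℝ} (h : a ≤ |α|) : gJ J a α = 0 := by
  unfold gJ
  rw [Finset.sum_eq_zero, mul_zero]
  intro j _
  exact tri_zero (scale_pos ha j) ((scale_le ha j).trans h)

lemma gJ_lip (hJ : 0 < J) (ha : 0 < a) (x y : ℝ) :
    |gJ J a x - gJ J a y| ≤ (2 ^ J / a) ^ 2 * |x - y| := by
  unfold gJ
  rw [← mul_sub, ← Finset.sum_sub_distrib, abs_mul, abs_of_nonneg (by positivity)]
  refine le_trans (mul_le_mul_of_nonneg_left (Finset.abs_sum_le_sum_abs _ _) (by positivity)) ?_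
  apply avg_le hJ
  intro j hj
  refine (tri_lip (scale_pos ha j) x y).trans ?_
  apply mul_le_mul_of_nonneg_right _ (abs_nonneg _)
  have := scale_inv_le ha (Finset.mem_range.1 hj)
  have h0 := scale_pos ha j
  exact pow_le_pow_left₀ (by positivity) this 2

lemma gJ_sq_lip (hJ : 0 < J) (ha : 0 < a) (x y : ℝ) :
    |gJ J a x ^ 2 - gJ J a y ^ 2| ≤ (2 * (2 ^ J / a) * (2 ^ J / a) ^ 2) * |x - y| := by
  have h1 : gJ J a x ^ 2 - gJ J a y ^ 2 = (gJ J a x + gJ J a y) * (gJ J a x - gJ J a y) := by ring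
  rw [h1, abs_mul]
  have h2 := gJ_le hJ ha x
  have h3 := gJ_le hJ ha y
  have h4 := gJ_nonneg (J := J) ha x
  have h5 := gJ_nonneg (J := J) ha y
  have h6 := gJ_lip hJ ha x y
  have h7 : |gJ J a x + gJ J a y| ≤ 2 * (2 ^ J / a) := by
    rw [abs_of_nonneg (by linarith)]
    linarith
  calc |gJ J a x + gJ J a y| * |gJ J a x - gJ J a y| ≤
      (2 * (2 ^ J / a)) * ((2 ^ J / a) ^ 2 * |x - y|) := by gcongr
    _ = _ := by ring

lemma phiJ_nonneg (x : ℝ) : 0 ≤ phiJ J a x := by
  unfold phiJ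
  positivity

lemma phiJ_le_one (hJ : 0 < J) (x : ℝ) : phiJ J a x ≤ 1 :=
  avg_le hJ fun _ _ => (sinc_sq_bd _).2.1

lemma phiJ_near (hJ : 0 < J) (ha : 0 < a) {M x : ℝ} (hx : |x| ≤ M) :
    1 - (4 * a * M) ^ 2 ≤ phiJ J a x := by
  apply le_avg hJ
  intro j _
  refine le_trans ?_ (sinc_sq_bd _).2.2.2
  have h1 : |Real.pi * (a / 2 ^ j) * x| ≤ 4 * a * M := by
    rw [abs_mul, abs_of_pos (by have := Real.pi_pos; positivity)]
    have h2 := scale_le ha j
    have h3 := Real.pi_lt_four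
    have h4 := scale_pos ha j
    have h5 : Real.pi * (a / 2 ^ j) ≤ 4 * a :=
      mul_le_mul h3.le h2 h4.le (by norm_num)
    exact mul_le_mul h5 hx (abs_nonneg _) (by positivity)
  have h2 : (Real.pi * (a / 2 ^ j) * x) ^ 2 ≤ (4 * a * M) ^ 2 := by
    rw [← sq_abs]
    exact pow_le_pow_left₀ (abs_nonneg _) h1 2
  linarith

/-- the decay constant -/
noncomputable def KJ (J : ℕ) (a : ℝ) : ℝ := 1 + (2 ^ J / a) ^ 2

lemma phiJ_decay (hJ : 0 < J) (ha : 0 < a) (x : ℝ) : phiJ J a x * (1 + x ^ 2) ≤ KJ J a := by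
  unfold phiJ
  rw [mul_assoc, Finset.sum_mul]
  apply avg_le hJ
  intro j hj
  obtain ⟨h1, h2, h3, _⟩ := sinc_sq_bd (Real.pi * (a / 2 ^ j) * x)
  have hb := scale_pos ha j
  have h4 := scale_inv_le ha (Finset.mem_range.1 hj)
  set b := a / 2 ^ j with hbdef
  set q := Real.sinc (Real.pi * b * x) ^ 2 with hq
  have hpi := Real.pi_gt_three
  have h5 : q * x ^ 2 ≤ (1 / b) ^ 2 := by
    have e : q * (Real.pi * b * x) ^ 2 = Real.pi ^ 2 * (b ^ 2 * (q * x ^ 2)) := by ring
    rw [e] at h3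
    have h6 : b ^ 2 * (q * x ^ 2) ≤ 1 := by
      have h7 : 0 ≤ b ^ 2 * (q * x ^ 2) := by positivity
      nlinarith
    rw [one_div, inv_pow, ← one_div, le_div_iff₀ (by positivity)]
    linarith
  have h6 : (1 / b) ^ 2 ≤ (2 ^ J / a) ^ 2 := pow_le_pow_left₀ (by positivity) h4 2
  unfold KJ
  rw [mul_add, mul_one]
  linarith

lemma phiJ_eq (ha : 0 < a) (x : ℝ) :
    phiJ J a x = ∫ α, gJ J a α * Real.cos (2 * Real.pi * α * x) := by
  have h1 : ∀ α, gJ J a α * Real.cos (2 * Real.pi * α * x) =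
      1 / (J : ℝ) * ∑ j ∈ range J, tri (a / 2 ^ j) α * Real.cos (2 * Real.pi * α * x) := by
    intro α
    unfold gJ
    rw [mul_assoc, Finset.sum_mul]
  simp_rw [h1]
  rw [integral_const_mul, integral_finsetSum]
  · unfold phiJ
    congr 1
    refine Finset.sum_congr rfl fun j _ => ?_
    rw [tri_fourier (scale_pos ha j)]
  · intro j _
    refine (tri_int (scale_pos ha j)).1.norm.mono' ?_ (Filter.Eventually.of_forall fun α => ?_)
    · exact ((tri_cont _).mul (by fun_prop)).aestronglyMeasurable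
    · rw [norm_mul, Real.norm_eq_abs (Real.cos _)]
      exact mul_le_of_le_one_right (norm_nonneg _) (Real.abs_cos_le_one _)

theorem wt (hJ : 0 < J) (ha : 0 < a) : Wt (gJ J a) (phiJ J a) a (KJ J a) where
  δ0 := ha.le
  gc := gJ_cont
  ge := fun α => by unfold gJ; simp only [tri_even]
  g0 := gJ_nonneg ha
  gs := fun α h => gJ_zero ha h.le
  phi_eq := phiJ_eq ha
  phi0 := phiJ_nonneg
  phiK := phiJ_decay hJ ha
  inv := fun β => by
    have hz : ∀ x, a ≤ |x| → gJ J a x = 0 := fun x hx => gJ_zero ha hx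
    have hR : ∀ x, H370.A2.RR (gJ J a) a x = phiJ J a x := by
      intro x
      rw [H370.A2.RR_eq gJ_cont hz, phiJ_eq ha]
      congr 1
      funext α
      unfold H370.A2.evp
      have : gJ J a (-α) = gJ J a α := by unfold gJ; simp only [tri_even]
      rw [this]
      ring
    have h1 := H370.A2.RR_inv gJ_cont hz (C := KJ J a) (fun x => by
      rw [hR, abs_of_nonneg (phiJ_nonneg x)]
      have h2 := phiJ_decay hJ ha x
      have h3 := phiJ_nonneg (J := J) (a := a) x
      nlinarith) β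
    simp_rw [hR] at h1
    rw [h1]
    unfold H370.A2.evp
    have : gJ J a (-β) = gJ J a β := by unfold gJ; simp only [tri_even]
    rw [this]
    ring

lemma geom_le (n : ℕ) : ∑ k ∈ range n, (1 / 2 : ℝ) ^ k ≤ 2 := by
  have h := geom_sum_eq (show (1 / 2 : ℝ) ≠ 1 by norm_num) n
  rw [h]
  have : (0 : ℝ) ≤ (1 / 2 : ℝ) ^ n := by positivity
  rw [div_le_iff_of_neg (by norm_num)]
  linarith

lemma row_le (j : ℕ) : ∑ k ∈ range J, (1 / 2 : ℝ) ^ ((j - k) + (k - j)) ≤ 4 := by
  have h1 : ∀ k ∈ range J, (1 / 2 : ℝ) ^ ((j - k) + (k - j)) ≤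
      (if k ≤ j then (1 / 2 : ℝ) ^ (j - k) else 0) + (if j ≤ k then (1 / 2 : ℝ) ^ (k - j) else 0) := by
    intro k _
    rcases le_total k j with h | h
    · rw [if_pos h]
      have : k - j = 0 := Nat.sub_eq_zero_of_le h
      rw [this, add_zero]
      split_ifs
      · have : (0 : ℝ) ≤ (1 / 2 : ℝ) ^ 0 := by positivity
        linarith
      · linarith
    · rw [if_pos h]
      have : j - k = 0 := Nat.sub_eq_zero_of_le h
      rw [this, zero_add]
      split_ifs
      · have : (0 : ℝ) ≤ (1 / 2 : ℝ) ^ 0 := by positivity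
        linarith
      · linarith
  refine (Finset.sum_le_sum h1).trans ?_
  rw [Finset.sum_add_distrib]
  have h2 : ∑ k ∈ range J, (if k ≤ j then (1 / 2 : ℝ) ^ (j - k) else 0) ≤ 2 := by
    rw [← Finset.sum_filter]
    have h3 : ∑ k ∈ (range J).filter (fun k => k ≤ j), (1 / 2 : ℝ) ^ (j - k) ≤
        ∑ k ∈ range (j + 1), (1 / 2 : ℝ) ^ (j - k) := by
      apply Finset.sum_le_sum_of_subset_of_nonneg
      · intro k hk
        rw [Finset.mem_filter] at hk
        rw [Finset.mem_range]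
        omega
      · intro k _ _
        positivity
    refine h3.trans ?_
    have h4 := Finset.sum_range_reflect (fun k => (1 / 2 : ℝ) ^ k) (j + 1)
    have h5 : ∑ k ∈ range (j + 1), (1 / 2 : ℝ) ^ (j - k) =
        ∑ k ∈ range (j + 1), (1 / 2 : ℝ) ^ (j + 1 - 1 - k) := by
      refine Finset.sum_congr rfl fun k _ => ?_
      rw [Nat.add_sub_cancel]
    rw [h5, h4]
    exact geom_le _
  have h3 : ∑ k ∈ range J, (if j ≤ k then (1 / 2 : ℝ) ^ (k - j) else 0) ≤ 2 := by
    have h4 : ∑ k ∈ range J, (if j ≤ k then (1 / 2 : ℝ) ^ (k - j) else 0) ≤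
        ∑ k ∈ range (j + J), (if j ≤ k then (1 / 2 : ℝ) ^ (k - j) else 0) := by
      apply Finset.sum_le_sum_of_subset_of_nonneg
      · intro k hk
        rw [Finset.mem_range] at hk ⊢
        omega
      · intro k _ _
        split_ifs <;> positivity
    refine h4.trans ?_
    rw [Finset.sum_range_add]
    have h5 : ∑ k ∈ range j, (if j ≤ k then (1 / 2 : ℝ) ^ (k - j) else 0) = 0 := by
      apply Finset.sum_eq_zero
      intro k hk
      rw [Finset.mem_range] at hk
      rw [if_neg (by omega)]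
    have h6 : ∑ k ∈ range J, (if j ≤ j + k then (1 / 2 : ℝ) ^ (j + k - j) else 0) =
        ∑ k ∈ range J, (1 / 2 : ℝ) ^ k := by
      refine Finset.sum_congr rfl fun k _ => ?_
      rw [if_pos (by omega), Nat.add_sub_cancel_left]
    rw [h5, h6, zero_add]
    exact geom_le _
  linarith

/-- the energy -/
lemma gJ_energy (hJ : 0 < J) (ha : 0 < a) : ∫ α, |α| * gJ J a α ^ 2 ≤ 4 / (J : ℝ) := by
  have hJ' : (0 : ℝ) < J := by exact_mod_cast hJ
  have e : ∀ α, |α| * gJ J a α ^ 2 = (1 / (J : ℝ)) ^ 2 * ∑ j ∈ range J, ∑ k ∈ range J,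
      |α| * (tri (a / 2 ^ j) α * tri (a / 2 ^ k) α) := by
    intro α
    unfold gJ
    rw [mul_pow, sq (∑ j ∈ range J, tri (a / 2 ^ j) α), Finset.sum_mul_sum]
    simp_rw [← Finset.mul_sum]
    ring
  simp_rw [e]
  have hi : ∀ j k : ℕ, Integrable fun α => |α| * (tri (a / 2 ^ j) α * tri (a / 2 ^ k) α) := by
    intro j k
    have hc : Continuous fun α => |α| * (tri (a / 2 ^ j) α * tri (a / 2 ^ k) α) :=
      continuous_abs.mul ((tri_cont _).mul (tri_cont _))
    apply hc.integrable_of_hasCompactSupport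
    apply HasCompactSupport.intro (isCompact_Icc (a := -a) (b := a))
    intro x hx
    have : a ≤ |x| := by
      by_contra h
      push Not at h
      obtain ⟨h3, h4⟩ := abs_lt.1 h
      exact hx ⟨h3.le, h4.le⟩
    rw [tri_zero (scale_pos ha j) ((scale_le ha j).trans this)]
    ring
  rw [integral_const_mul, integral_finsetSum _ fun j _ => integrable_finsetSum _ fun k _ => hi j k]
  have h1 : ∀ j ∈ range J, ∫ α, ∑ k ∈ range J, |α| * (tri (a / 2 ^ j) α * tri (a / 2 ^ k) α) ≤ 4 := by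
    intro j _
    rw [integral_finsetSum _ fun k _ => hi j k]
    refine le_trans (Finset.sum_le_sum fun k _ => ?_) (row_le (J := J) j)
    rcases le_total j k with h | h
    · refine (tri_energy (scale_pos ha j) (scale_pos ha k)).trans (le_of_eq ?_)
      have : j - k = 0 := Nat.sub_eq_zero_of_le h
      rw [this, zero_add]
      have e2 : (2 : ℝ) ^ k = 2 ^ j * 2 ^ (k - j) := by rw [← pow_add]; congr 1; omega
      rw [e2, one_div, inv_pow]
      field_simp
    · have e3 : ∀ α, |α| * (tri (a / 2 ^ j) α * tri (a / 2 ^ k) α) =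
          |α| * (tri (a / 2 ^ k) α * tri (a / 2 ^ j) α) := fun α => by ring
      simp_rw [e3]
      refine (tri_energy (scale_pos ha k) (scale_pos ha j)).trans (le_of_eq ?_)
      have : k - j = 0 := Nat.sub_eq_zero_of_le h
      rw [this, add_zero]
      have e2 : (2 : ℝ) ^ j = 2 ^ k * 2 ^ (j - k) := by rw [← pow_add]; congr 1; omega
      rw [e2, one_div, inv_pow]
      field_simp
  have h2 : ∑ j ∈ range J, ∫ α, ∑ k ∈ range J,
      |α| * (tri (a / 2 ^ j) α * tri (a / 2 ^ k) α) ≤ J * 4 := by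
    have := Finset.sum_le_card_nsmul (range J) _ 4 h1
    rwa [card_range, nsmul_eq_mul] at this
  calc (1 / (J : ℝ)) ^ 2 * (∑ j ∈ range J, ∫ α, ∑ k ∈ range J,
      |α| * (tri (a / 2 ^ j) α * tri (a / 2 ^ k) α)) ≤ (1 / (J : ℝ)) ^ 2 * (J * 4) :=
        mul_le_mul_of_nonneg_left h2 (by positivity)
    _ = 4 / (J : ℝ) := by field_simp

end

end Pool.Agent.R846.NR
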