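import Pool.Agent.Y750.OM.Main1
import Pool.Agent.R846.NR.Tri
import Pool.Agent.R846.NR.Abs2

/-! # Number rigidity of the zeros of the zeta function -/

set_option autoImplicit false

open Finset MeasureTheory Set Filter Topology
open H370 (Zf mult mem_Zf good_zeta zset NN NN_eq nn_asymp)
open H370.A2 (weight_sum)
open Pool.Agent.Y750.OM (rh PO NO pair_ord)

namespace Pool.Agent.R846.NR

/-- the multiplicity -/
noncomputable def mz (s : ℂ) : ℝ := (mult riemannZeta s : ℝ)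

lemma mz_nonneg (s : ℂ) : 0 ≤ mz s := Nat.cast_nonneg _

/-- the variance of the linear statistic -/
theorem var_block : ∃ C : ℝ, 0 < C ∧ ∀ (J : ℕ) (a : ℝ), 0 < J → 0 < a → a ≤ 1 / 2 →
    ∀ τ : ℝ, 0 < τ → ∃ T0 : ℝ, 10 ≤ T0 ∧ ∀ T : ℝ, T0 ≤ T →
      1 ≤ Real.log T / (2 * Real.pi) ∧
      (Real.log T / (2 * Real.pi))⁻¹ * ∑ s ∈ Zf riemannZeta T (2 * T), mz s ≤ 2 * T ∧
      ∫ t in Icc T (2 * T), (W (Zf riemannZeta T (2 * T)) mz Complex.im
        (Real.log T / (2 * Real.pi)) (phiJ J a) t - gJ J a 0) ^ 2 ≤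
        (2 * (4 / J + C * 4 ^ J * a) + τ) * T := by
  obtain ⟨C, θ, hC, hθ, hpair⟩ := pair_ord (show (0 : ℝ) < 1 / 2 by norm_num)
    (show (1 / 2 : ℝ) < 2 / 3 by norm_num)
  obtain ⟨C1, T1, hC1, hT1, hcnt⟩ := nn_asymp good_zeta
  obtain ⟨C2, hC2, hws⟩ := weight_sum good_zeta
  have hpi := Real.pi_gt_three
  have hpi0 := Real.pi_pos
  refine ⟨C, hC, fun J a hJ ha ha2 τ hτ => ?_⟩
  have hw := wt (J := J) (a := a) hJ ha
  set c : ℝ := gJ J a 0 with hc
  have hc0 : 0 ≤ c := gJ_nonneg ha 0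
  set η : ℝ := τ / (64 * (c + 1)) with hη
  have hη0 : 0 < η := by positivity
  obtain ⟨Cη, hCη, htail⟩ := hw.tail_le' hη0
  have hdec : ∀ x, |rh (fun α => gJ J a α ^ 2) x| * (1 + x ^ 2) ≤
      (2 * Real.pi) ^ 2 * (8 * KJ J a * gJ J a 0) := by
    intro x
    have h1 := hw.autocorr_decay (x / (2 * Real.pi))
    have e : rh (fun α => gJ J a α ^ 2) x =
        ∫ α, gJ J a α ^ 2 * Real.cos (2 * Real.pi * α * (x / (2 * Real.pi))) := by
      unfold rh
      congr 1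
      funext α
      congr 2
      field_simp
    rw [e]
    have h2 : 1 + x ^ 2 ≤ (2 * Real.pi) ^ 2 * (1 + (x / (2 * Real.pi)) ^ 2) := by
      have e : (2 * Real.pi) ^ 2 * (1 + (x / (2 * Real.pi)) ^ 2) = (2 * Real.pi) ^ 2 + x ^ 2 := by
        field_simp
      rw [e]
      have : 1 ≤ (2 * Real.pi) ^ 2 := one_le_pow₀ (by linarith)
      linarith
    calc |∫ α, gJ J a α ^ 2 * Real.cos (2 * Real.pi * α * (x / (2 * Real.pi)))| * (1 + x ^ 2) ≤
        |∫ α, gJ J a α ^ 2 * Real.cos (2 * Real.pi * α * (x / (2 * Real.pi)))| *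
          ((2 * Real.pi) ^ 2 * (1 + (x / (2 * Real.pi)) ^ 2)) := by gcongr
      _ = (2 * Real.pi) ^ 2 * (|∫ α, gJ J a α ^ 2 *
          Real.cos (2 * Real.pi * α * (x / (2 * Real.pi)))| * (1 + (x / (2 * Real.pi)) ^ 2)) := by
          ring
      _ ≤ _ := by gcongr
  obtain ⟨T2, hT2, hp⟩ := hpair a ha ha2 (fun α => gJ J a α ^ 2) _ (gJ_sq_lip hJ ha)
    (fun α hα => by
      show gJ J a α ^ 2 = 0
      rw [gJ_zero ha hα.le]
      ring) _ hdec ((2 ^ J / a) ^ 2) (fun α => by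
      rw [abs_of_nonneg (sq_nonneg _)]
      exact pow_le_pow_left₀ (gJ_nonneg ha α) (gJ_le hJ ha α) 2) (τ / 16) (by positivity)
  -- growth
  have gl : Tendsto (fun T : ℝ => Real.log T) atTop atTop := Real.tendsto_log_atTop
  have ev : ∀ᶠ T : ℝ in atTop, 2 * Real.pi * (1 + C1 + c ^ 2 * C1 * (8 / τ)) ≤ Real.log T ∧
      2 * c * (4 * Real.pi * Cη * C2) * (8 / τ) ≤ T :=
    (gl.eventually_ge_atTop _).and (eventually_ge_atTop _)
  obtain ⟨T3, hT3⟩ := ev.exists_forall_of_atTop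
  refine ⟨max (max T1 T2) (max T3 10), (le_max_right _ _).trans (le_max_right _ _),
    fun T hT => ?_⟩
  have hTT1 : T1 ≤ T := ((le_max_left _ _).trans (le_max_left _ _)).trans hT
  have hTT2 : T2 ≤ T := ((le_max_right _ _).trans (le_max_left _ _)).trans hT
  have hTT3 : T3 ≤ T := ((le_max_left _ _).trans (le_max_right _ _)).trans hT
  have hT10 : 10 ≤ T := ((le_max_right _ _).trans (le_max_right _ _)).trans hT
  have hTpos : 0 < T := by linarith
  obtain ⟨g1, g2⟩ := hT3 T hTT3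
  set lam : ℝ := Real.log T / (2 * Real.pi) with hlam
  have hL : Real.log T = 2 * Real.pi * lam := by rw [hlam]; field_simp
  have hlam1 : 1 + C1 + c ^ 2 * C1 * (8 / τ) ≤ lam := by
    rw [hL] at g1
    exact le_of_mul_le_mul_left g1 (by positivity)
  have hx1 : 0 ≤ c ^ 2 * C1 * (8 / τ) := by positivity
  have hlam' : 1 ≤ lam := by linarith
  have hl : 0 < lam := by linarith
  set S := Zf riemannZeta T (2 * T) with hS
  have hmem : ∀ s ∈ S, T ≤ s.im ∧ s.im ≤ 2 * T := by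
    intro s hs
    rw [hS, mem_Zf good_zeta (by linarith)] at hs
    exact ⟨hs.2.2.1.le, hs.2.2.2.1⟩
  set N : ℝ := ∑ s ∈ S, mz s with hN
  have hNN : (NN riemannZeta T (2 * T) : ℝ) = N := by
    rw [NN_eq good_zeta (by linarith)]
    push_cast
    rfl
  have hN0 : 0 ≤ N := Finset.sum_nonneg fun s _ => mz_nonneg s
  have hcn := hcnt T hTT1 T (2 * T) le_rfl (by linarith) (by linarith) le_rfl
  rw [hNN] at hcn
  have e1 : T * Real.log T / (2 * Real.pi) = T * lam := by rw [hL]; field_simp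
  rw [e1, abs_le] at hcn
  obtain ⟨n1, n2⟩ := hcn
  have hNup : lam⁻¹ * N ≤ T + C1 * T / lam := by
    rw [inv_mul_le_iff₀ hl]
    have : lam * (T + C1 * T / lam) = T * lam + C1 * T := by field_simp
    rw [this]
    linarith
  have hNlow : T - C1 * T / lam ≤ lam⁻¹ * N := by
    rw [← div_eq_inv_mul, le_div_iff₀ hl]
    have : (T - C1 * T / lam) * lam = T * lam - C1 * T := by field_simp
    rw [this]
    linarith
  have hCl : C1 * T / lam ≤ T := by
    rw [div_le_iff₀ hl, mul_comm C1]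
    exact mul_le_mul_of_nonneg_left (by linarith) hTpos.le
  have hN2 : lam⁻¹ * N ≤ 2 * T := by linarith
  refine ⟨hlam', hN2, ?_⟩
  -- the boundary
  have hB := hw.out_bound S mz Complex.im lam hCη htail hlam' (fun s _ => mz_nonneg s) hmem
  have w1 := hws T hT10 T (2 * T) le_rfl (by linarith) T
  have w2 := hws T hT10 T (2 * T) le_rfl (by linarith) (2 * T)
  have hB2 : ∫ t in (Icc T (2 * T))ᶜ, W S mz Complex.im lam (phiJ J a) t ≤
      2 * η * (lam⁻¹ * N) + 4 * Real.pi * Cη * C2 := by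
    refine hB.trans ?_
    have h1 : Cη * (∑ s ∈ S, mz s * (1 / (1 + (s.im - T) ^ 2)) +
        ∑ s ∈ S, mz s * (1 / (1 + (s.im - 2 * T) ^ 2))) ≤ Cη * (2 * (C2 * Real.log T)) := by
      apply mul_le_mul_of_nonneg_left _ hCη
      have w1' : ∑ s ∈ S, mz s * (1 / (1 + (s.im - T) ^ 2)) ≤ C2 * Real.log T := w1
      have w2' : ∑ s ∈ S, mz s * (1 / (1 + (s.im - 2 * T) ^ 2)) ≤ C2 * Real.log T := w2
      linarith
    have hli : 0 ≤ lam⁻¹ := inv_nonneg.2 hl.le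
    calc lam⁻¹ * (2 * η * (∑ s ∈ S, mz s) + Cη * (∑ s ∈ S, mz s * (1 / (1 + (s.im - T) ^ 2)) +
        ∑ s ∈ S, mz s * (1 / (1 + (s.im - 2 * T) ^ 2)))) ≤
        lam⁻¹ * (2 * η * N + Cη * (2 * (C2 * Real.log T))) :=
          mul_le_mul_of_nonneg_left (by linarith) hli
      _ = _ := by rw [hL]; field_simp; ring
  -- the pair sum
  have hPO := hp T hTT2
  rw [hNN] at hPO
  have hNO : NO T (2 * T) ≤ N := by
    unfold NO
    exact Finset.sum_le_sum_of_subset_of_nonneg (Finset.filter_subset _ _)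
      fun s _ _ => mz_nonneg s
  have hNO0 : 0 ≤ NO T (2 * T) := Pool.Agent.Y750.OM.NO_nonneg _ _
  have hratio : (NO T (2 * T) / N) ^ θ ≤ 1 := by
    apply Real.rpow_le_one (div_nonneg hNO0 hN0) _ hθ.le
    exact div_le_one_of_le₀ hNO hN0
  have hen := gJ_energy hJ ha
  have hQ : ∑ s ∈ S, ∑ s' ∈ S, mz s * mz s' *
        ∫ α, gJ J a α ^ 2 * Real.cos (2 * Real.pi * α * ((s.im - s'.im) * lam)) ≤
      N * (c ^ 2 + (4 / J + C * 4 ^ J * a + τ / 16)) := by
    have e2 : ∑ s ∈ S, ∑ s' ∈ S, mz s * mz s' *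
        ∫ α, gJ J a α ^ 2 * Real.cos (2 * Real.pi * α * ((s.im - s'.im) * lam)) =
        PO (rh (fun α => gJ J a α ^ 2)) T (2 * T) (Real.log T) := by
      unfold PO
      refine Finset.sum_congr rfl fun s _ => Finset.sum_congr rfl fun s' _ => ?_
      unfold rh mz
      congr 2
      funext α
      congr 2
      rw [hL]
      ring
    rw [e2]
    have h1 := (abs_le.1 hPO).2
    have h2 : C * (2 ^ J / a) ^ 2 * a ^ 3 * (NO T (2 * T) / N) ^ θ ≤ C * 4 ^ J * a := by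
      have e3 : C * (2 ^ J / a) ^ 2 * a ^ 3 = C * 4 ^ J * a := by
        have : (4 : ℝ) ^ J = (2 ^ J) ^ 2 := by rw [← pow_mul, mul_comm, pow_mul]; norm_num
        rw [this]
        field_simp
      rw [e3]
      exact mul_le_of_le_one_right (by positivity) hratio
    have h3 : N * (gJ J a 0 ^ 2 + ∫ α, |α| * gJ J a α ^ 2) ≤ N * (c ^ 2 + 4 / J) := by
      apply mul_le_mul_of_nonneg_left _ hN0
      linarith
    have h4 : (C * (2 ^ J / a) ^ 2 * a ^ 3 * (NO T (2 * T) / N) ^ θ + τ / 16) * N ≤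
        (C * 4 ^ J * a + τ / 16) * N := by
      apply mul_le_mul_of_nonneg_right _ hN0
      linarith
    linarith
  have hvar := hw.variance S mz Complex.im lam hlam' (show T ≤ 2 * T by linarith) hQ hB2
  refine hvar.trans ?_
  set e : ℝ := 4 / J + C * 4 ^ J * a + τ / 16 with he
  have he0 : 0 ≤ e := by
    have : (0 : ℝ) < J := by exact_mod_cast hJ
    positivity
  have hsmall : c ^ 2 * (C1 * T / lam) ≤ τ / 8 * T := by
    have h1 : c ^ 2 * C1 * (8 / τ) ≤ lam := by linarith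
    have h2 : c ^ 2 * C1 ≤ τ / 8 * lam := by
      have h3 : c ^ 2 * C1 * (8 / τ) * (τ / 8) ≤ lam * (τ / 8) :=
        mul_le_mul_of_nonneg_right h1 (by positivity)
      have h4 : c ^ 2 * C1 * (8 / τ) * (τ / 8) = c ^ 2 * C1 := by field_simp
      linarith
    have h5 : c ^ 2 * (C1 * T / lam) = c ^ 2 * C1 * T / lam := by ring
    rw [h5, div_le_iff₀ hl]
    have h6 := mul_le_mul_of_nonneg_right h2 hTpos.le
    calc c ^ 2 * C1 * T ≤ τ / 8 * lam * T := h6
      _ = _ := by ring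
  have hs2 : 2 * c * (4 * Real.pi * Cη * C2) ≤ τ / 8 * T := by
    have h3 : 2 * c * (4 * Real.pi * Cη * C2) * (8 / τ) * (τ / 8) ≤ T * (τ / 8) :=
      mul_le_mul_of_nonneg_right g2 (by positivity)
    have h4 : 2 * c * (4 * Real.pi * Cη * C2) * (8 / τ) * (τ / 8) =
        2 * c * (4 * Real.pi * Cη * C2) := by field_simp
    linarith
  have hs3 : 2 * c * (2 * η * (lam⁻¹ * N)) ≤ τ / 8 * T := by
    have h1 : 2 * c * (2 * η * (lam⁻¹ * N)) ≤ 2 * c * (2 * η * (2 * T)) := by gcongr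
    have h2 : c * η ≤ τ / 64 := by
      rw [hη, ← mul_div_assoc, div_le_div_iff₀ (by positivity) (by norm_num)]
      have : c * τ ≤ (c + 1) * τ := mul_le_mul_of_nonneg_right (by linarith) hτ.le
      linarith
    have h3 := mul_le_mul_of_nonneg_right h2 (show 0 ≤ 8 * T by positivity)
    calc 2 * c * (2 * η * (lam⁻¹ * N)) ≤ 2 * c * (2 * η * (2 * T)) := h1
      _ = c * η * (8 * T) := by ring
      _ ≤ τ / 64 * (8 * T) := h3
      _ = _ := by ring
  have hs4 : lam⁻¹ * (N * (c ^ 2 + e)) = (lam⁻¹ * N) * c ^ 2 + (lam⁻¹ * N) * e := by ring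
  have hs5 : (lam⁻¹ * N) * e ≤ 2 * T * e := mul_le_mul_of_nonneg_right hN2 he0
  have hs6 : c ^ 2 * (T - lam⁻¹ * N) ≤ c ^ 2 * (C1 * T / lam) :=
    mul_le_mul_of_nonneg_left (by linarith) (sq_nonneg _)
  have hs7 : 2 * T * e = 2 * (4 / J + C * 4 ^ J * a) * T + τ / 8 * T := by rw [he]; ring
  rw [hs4]
  have hs8 : (2 * (4 / J + C * 4 ^ J * a) + τ) * T = 2 * (4 / J + C * 4 ^ J * a) * T + τ * T := by
    ring
  rw [hs8]
  have hs9 : 2 * c * (2 * η * (lam⁻¹ * N) + 4 * Real.pi * Cη * C2) =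
      2 * c * (2 * η * (lam⁻¹ * N)) + 2 * c * (4 * Real.pi * Cη * C2) := by ring
  rw [hs9]
  have hs10 : 0 ≤ τ * T := by positivity
  have hs11 : c ^ 2 * (2 * (lam⁻¹ * N) - (2 * T - T)) =
      (lam⁻¹ * N) * c ^ 2 - c ^ 2 * (T - lam⁻¹ * N) := by ring
  rw [hs11]
  linarith

/-- **number rigidity**, for a dyadic block of zeros -/
theorem rigid_block (M ε : ℝ) (hM : 0 < M) (hε : 0 < ε) : ∃ (J : ℕ) (a A T0 : ℝ), 0 < J ∧ 0 < a ∧
    M ≤ A ∧ 10 ≤ T0 ∧ ∀ T : ℝ, T0 ≤ T → ∃ E : Set ℝ, volume E ≤ ENNReal.ofReal (ε / 2 * T) ∧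
      ∀ t, T ≤ t → t ≤ 2 * T → t ∉ E → ∀ B : Set ℝ, B ⊆ Icc (-M) M →
        |numS (Zf riemannZeta T (2 * T)) mz Complex.im (Real.log T / (2 * Real.pi)) t B -
          (gJ J a 0 - outS (Zf riemannZeta T (2 * T)) mz Complex.im
            (Real.log T / (2 * Real.pi)) (phiJ J a) A t B)| ≤ ε := by
  obtain ⟨C, hC, hvar⟩ := var_block
  set τ : ℝ := ε ^ 3 / 72 with hτ
  have hτ0 : 0 < τ := by positivity
  obtain ⟨J, hJ⟩ := exists_nat_gt (64 / τ)
  have hJ0' : (0 : ℝ) < J := lt_trans (by positivity) hJ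
  have hJ0 : 0 < J := by exact_mod_cast hJ0'
  have h4J : 4 / (J : ℝ) ≤ τ / 16 := by
    rw [div_lt_iff₀ hτ0] at hJ
    rw [div_le_div_iff₀ hJ0' (by norm_num)]
    linarith
  obtain ⟨a, ha, ha1, ha2, ha3⟩ : ∃ a : ℝ, 0 < a ∧ a ≤ 1 / 2 ∧ C * 4 ^ J * a ≤ τ / 16 ∧
      (4 * a * M) ^ 2 ≤ ε ^ 2 / (96 * M) := by
    set a1 : ℝ := τ / 16 / (C * 4 ^ J) with ha1
    set a2 : ℝ := Real.sqrt (ε ^ 2 / (96 * M)) / (4 * M) with ha2
    have p1 : 0 < a1 := by positivity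
    have p2 : 0 < a2 := by positivity
    refine ⟨min (1 / 2) (min a1 a2), lt_min (by norm_num) (lt_min p1 p2), min_le_left _ _, ?_, ?_⟩
    · have h1 : min (1 / 2) (min a1 a2) ≤ a1 := (min_le_right _ _).trans (min_le_left _ _)
      calc C * 4 ^ J * min (1 / 2) (min a1 a2) ≤ C * 4 ^ J * a1 := by gcongr
        _ = τ / 16 := by rw [ha1]; field_simp
    · have h1 : min (1 / 2) (min a1 a2) ≤ a2 := (min_le_right _ _).trans (min_le_right _ _)
      have h0 : 0 < min (1 / 2) (min a1 a2) := lt_min (by norm_num) (lt_min p1 p2)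
      have h2 : 4 * min (1 / 2) (min a1 a2) * M ≤ Real.sqrt (ε ^ 2 / (96 * M)) := by
        calc 4 * min (1 / 2) (min a1 a2) * M ≤ 4 * a2 * M := by gcongr
          _ = Real.sqrt (ε ^ 2 / (96 * M)) := by rw [ha2]; field_simp
      calc (4 * min (1 / 2) (min a1 a2) * M) ^ 2 ≤ Real.sqrt (ε ^ 2 / (96 * M)) ^ 2 :=
            pow_le_pow_left₀ (by positivity) h2 2
        _ = _ := Real.sq_sqrt (by positivity)
  obtain ⟨T0, hT0, h⟩ := hvar J a hJ0 ha ha1 (τ / 4) (by positivity)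
  set A : ℝ := max M (96 * KJ J a / ε ^ 2) with hA
  have hMA : M ≤ A := le_max_left _ _
  have hA0 : 0 < A := hM.trans_le hMA
  have hKA : 96 * KJ J a / ε ^ 2 ≤ A := le_max_right _ _
  refine ⟨J, a, A, T0, hJ0, ha, hMA, hT0, fun T hT => ?_⟩
  obtain ⟨h1, h2, h3⟩ := h T hT
  have hTpos : 0 < T := by linarith
  have hE1 : ∫ t in Icc T (2 * T), (W (Zf riemannZeta T (2 * T)) mz Complex.im
        (Real.log T / (2 * Real.pi)) (phiJ J a) t - gJ J a 0) ^ 2 ≤ τ * T := by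
    refine h3.trans (mul_le_mul_of_nonneg_right ?_ hTpos.le)
    linarith
  obtain ⟨E, hE, hgood⟩ := (wt hJ0 ha).rigid (Zf riemannZeta T (2 * T)) mz Complex.im
    (Real.log T / (2 * Real.pi)) (phiJ_le_one hJ0) h1 (fun s _ => mz_nonneg s) hM hMA hε h2 hE1
    (e3 := (4 * a * M) ^ 2) (fun v hv => phiJ_near hJ0 ha hv)
  refine ⟨E, hE.trans (ENNReal.ofReal_le_ofReal ?_), hgood⟩
  have hK : 0 ≤ KJ J a := by unfold KJ; positivity
  have b1 : 9 / ε ^ 2 * (τ * T) = ε / 8 * T := by rw [hτ]; field_simp; norm_num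
  have b2 : 3 / ε * (2 * T * (2 * KJ J a / A)) ≤ ε / 8 * T := by
    have h4 : 96 * KJ J a ≤ A * ε ^ 2 := by rwa [div_le_iff₀ (by positivity)] at hKA
    have h5 : 3 / ε * (2 * T * (2 * KJ J a / A)) = 12 * KJ J a * T / (ε * A) := by
      field_simp; ring
    rw [h5, div_le_iff₀ (by positivity)]
    have h6 : 96 * KJ J a * (T / 8) ≤ A * ε ^ 2 * (T / 8) :=
      mul_le_mul_of_nonneg_right h4 (by positivity)
    calc 12 * KJ J a * T = 96 * KJ J a * (T / 8) := by ring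
      _ ≤ A * ε ^ 2 * (T / 8) := h6
      _ = _ := by ring
  have b3 : 3 / ε * (2 * T * (2 * M * (4 * a * M) ^ 2)) ≤ ε / 8 * T := by
    have h4 : 3 / ε * (2 * T * (2 * M * (4 * a * M) ^ 2)) ≤
        3 / ε * (2 * T * (2 * M * (ε ^ 2 / (96 * M)))) := by gcongr
    refine h4.trans (le_of_eq ?_)
    field_simp
    norm_num
  rw [b1]
  have : 0 ≤ ε / 8 * T := by positivity
  linarith

end Pool.Agent.R846.NR
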